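import Pool.Agent.Q230.DP.Main
import Pool.Agent.H612.CollectPoly
import Pool.Agent.NPC.Dec

/-!
# The polynomial-time algorithm
-/

set_option autoImplicit false

namespace Pool.Agent.Q230.DP

open Pool.Agent.NPC

/-- the test for being the matrix of a partial order -/
def posetB (M : List (List Bool)) : Bool :=
  (M.all fun r => decide (r.length = M.length)) &&
  (((List.range M.length).all fun i => ent M i i) &&
  (((List.range M.length).all fun i => (List.range M.length).all fun j =>
    !(ent M i j && ent M j i) || decide (i = j)) &&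
  ((List.range M.length).all fun i => (List.range M.length).all fun j =>
    (List.range M.length).all fun k => !(ent M i j && ent M j k) || ent M i k)))

theorem posetB_iff (M : List (List Bool)) : posetB M = true ↔ IsPosetMatrix M := by
  unfold posetB IsPosetMatrix
  simp only [Bool.and_eq_true, List.all_eq_true, decide_eq_true_eq, List.mem_range,
    Bool.or_eq_true, Bool.not_eq_true', Bool.and_eq_false_iff]
  refine and_congr Iff.rfl (and_congr Iff.rfl (and_congr ?_ ?_))
  · constructor
    · intro h i hi j hj h1 h2
      rcases h i hi j hj with (h3 | h3) | h3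
      · rw [h1] at h3; exact absurd h3 (by simp)
      · rw [h2] at h3; exact absurd h3 (by simp)
      · exact h3
    · intro h i hi j hj
      rcases h1 : ent M i j with _ | _
      · exact Or.inl (Or.inl rfl)
      · rcases h2 : ent M j i with _ | _
        · exact Or.inl (Or.inr rfl)
        · exact Or.inr (h i hi j hj h1 h2)
  · constructor
    · intro h i hi j hj k hk h1 h2
      rcases h i hi j hj k hk with (h3 | h3) | h3
      · rw [h1] at h3; exact absurd h3 (by simp)
      · rw [h2] at h3; exact absurd h3 (by simp)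
      · exact h3
    · intro h i hi j hj k hk
      rcases h1 : ent M i j with _ | _
      · exact Or.inl (Or.inl rfl)
      · rcases h2 : ent M j k with _ | _
        · exact Or.inl (Or.inr rfl)
        · exact Or.inr (h i hi j hj k hk h1 h2)

/-- `z` is a meet of `x` and `y` -/
def meetB (M : List (List Bool)) (x y z : ℕ) : Bool :=
  ent M z x && (ent M z y && (List.range M.length).all fun w =>
    !(ent M w x && ent M w y) || ent M w z)

/-- the test for local meets -/
def condA (M : List (List Bool)) : Bool :=
  (List.range M.length).all fun e => (List.range M.length).all fun x =>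
    (List.range M.length).all fun y => !(ent M x e && ent M y e) ||
      (List.range M.length).any fun z => meetB M x y z

/-- the test for local joins -/
def joinB (M : List (List Bool)) (e x y j : ℕ) : Bool :=
  ent M x e && (ent M y e && (ent M j e && (ent M x j && (ent M y j &&
    (List.range M.length).all fun w => !(ent M w e && (ent M x w && ent M y w)) || ent M j w))))

/-- the test for being minimal -/
def minB (M : List (List Bool)) (v : ℕ) : Bool :=
  (List.range M.length).all fun w => !(ent M w v) || decide (w = v)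

/-- the initial set -/
def init (M : List (List Bool)) (c : ℕ) : List ℕ :=
  (List.range M.length).filter fun v => decide (v = c) || minB M v

/-- one step of the closure -/
def step (M : List (List Bool)) (s : List ℕ) : List ℕ :=
  (List.range M.length).filter fun v => decide (v ∈ s) || ((s.any fun x => ent M v x) ||
    (List.range M.length).any fun e => s.any fun x => s.any fun y => joinB M e x y v)

/-- the closure of `c` -/
def clo (M : List (List Bool)) (c : ℕ) : List ℕ := (step M)^[(List.range M.length).length] (init M c)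

/-- the main test -/
def condB (M : List (List Bool)) : Bool :=
  (List.range M.length).all fun c => (clo M c).all fun x => (List.range M.length).all fun d =>
    !(ent M c d && ent M x d) || ent M x c

/-- the decision procedure -/
def decB (M : List (List Bool)) : Bool := posetB M && (condA M && condB M)

/-! ### Running time -/

section

variable {α : Type} [TEnc α] {M : α → List (List Bool)}

theorem poly_ent {i j : α → ℕ} (hM : Poly M) (hi : Poly i) (hj : Poly j) :
    Poly (fun a => ent (M a) (i a) (j a)) :=
  Poly.getD (Poly.getD hM hi (NPC.Poly.const [])) hj (NPC.Poly.const false)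

theorem rng (hM : Poly M) : Poly (fun a => List.range (M a).length) := (UPoly.length hM).range

theorem poly_meetB {x y z : α → ℕ} (hM : Poly M) (hx : Poly x) (hy : Poly y) (hz : Poly z) :
    Poly (fun a => meetB (M a) (x a) (y a) (z a)) := by
  refine Poly.and (poly_ent hM hz hx) (Poly.and (poly_ent hM hz hy) ?_)
  refine Poly.all (p := fun a w => !(ent (M a) w (x a) && ent (M a) w (y a)) ||
    ent (M a) w (z a)) (rng hM) ?_
  have f : Poly (fun p : α × ℕ => p.1) := Poly.fst Poly.id
  have w : Poly (fun p : α × ℕ => p.2) := Poly.snd Poly.id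
  exact Poly.or (Poly.not (Poly.and (poly_ent (hM.comp f) w (hx.comp f))
    (poly_ent (hM.comp f) w (hy.comp f)))) (poly_ent (hM.comp f) w (hz.comp f))

theorem poly_joinB {e x y z : α → ℕ} (hM : Poly M) (he : Poly e) (hx : Poly x) (hy : Poly y)
    (hz : Poly z) : Poly (fun a => joinB (M a) (e a) (x a) (y a) (z a)) := by
  refine Poly.and (poly_ent hM hx he) (Poly.and (poly_ent hM hy he) (Poly.and (poly_ent hM hz he)
    (Poly.and (poly_ent hM hx hz) (Poly.and (poly_ent hM hy hz) ?_))))
  refine Poly.all (p := fun a w => !(ent (M a) w (e a) && (ent (M a) (x a) w &&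
    ent (M a) (y a) w)) || ent (M a) (z a) w) (rng hM) ?_
  have f : Poly (fun p : α × ℕ => p.1) := Poly.fst Poly.id
  have w : Poly (fun p : α × ℕ => p.2) := Poly.snd Poly.id
  exact Poly.or (Poly.not (Poly.and (poly_ent (hM.comp f) w (he.comp f))
    (Poly.and (poly_ent (hM.comp f) (hx.comp f) w) (poly_ent (hM.comp f) (hy.comp f) w))))
    (poly_ent (hM.comp f) (hz.comp f) w)

theorem poly_minB {v : α → ℕ} (hM : Poly M) (hv : Poly v) : Poly (fun a => minB (M a) (v a)) := by
  refine Poly.all (p := fun a w => !(ent (M a) w (v a)) || decide (w = v a)) (rng hM) ?_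
  have f : Poly (fun p : α × ℕ => p.1) := Poly.fst Poly.id
  have w : Poly (fun p : α × ℕ => p.2) := Poly.snd Poly.id
  exact Poly.or (Poly.not (poly_ent (hM.comp f) w (hv.comp f))) (Poly.decide_eq w (hv.comp f))

theorem poly_init {c : α → ℕ} (hM : Poly M) (hc : Poly c) : Poly (fun a => init (M a) (c a)) := by
  refine Poly.filter (p := fun a v => decide (v = c a) || minB (M a) v) (rng hM) ?_
  have f : Poly (fun p : α × ℕ => p.1) := Poly.fst Poly.id
  have w : Poly (fun p : α × ℕ => p.2) := Poly.snd Poly.id
  exact Poly.or (Poly.decide_eq w (hc.comp f)) (poly_minB (hM.comp f) w)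

theorem poly_step {s : α → List ℕ} (hM : Poly M) (hs : Poly s) :
    Poly (fun a => step (M a) (s a)) := by
  refine Poly.filter (p := fun a v => decide (v ∈ s a) || (((s a).any fun x => ent (M a) v x) ||
    (List.range (M a).length).any fun e => (s a).any fun x => (s a).any fun y =>
      joinB (M a) e x y v)) (rng hM) ?_
  have f : Poly (fun p : α × ℕ => p.1) := Poly.fst Poly.id
  have v : Poly (fun p : α × ℕ => p.2) := Poly.snd Poly.id
  refine Poly.or (Poly.decide_mem v (hs.comp f)) (Poly.or ?_ ?_)
  · refine Poly.any (p := fun (p : α × ℕ) x => ent (M p.1) p.2 x) (hs.comp f) ?_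
    exact poly_ent (hM.comp (Poly.fst (Poly.fst Poly.id))) (Poly.snd (Poly.fst Poly.id))
      (Poly.snd Poly.id)
  · refine Poly.any (p := fun (p : α × ℕ) e => (s p.1).any fun x => (s p.1).any fun y =>
      joinB (M p.1) e x y p.2) (rng (hM.comp f)) ?_
    have f2 : Poly (fun p : (α × ℕ) × ℕ => p.1.1) := Poly.fst (Poly.fst Poly.id)
    refine Poly.any (p := fun (p : (α × ℕ) × ℕ) x => (s p.1.1).any fun y =>
      joinB (M p.1.1) p.2 x y p.1.2) (hs.comp f2) ?_
    have f3 : Poly (fun p : ((α × ℕ) × ℕ) × ℕ => p.1.1.1) := f2.comp (Poly.fst Poly.id)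
    refine Poly.any (p := fun (p : ((α × ℕ) × ℕ) × ℕ) y =>
      joinB (M p.1.1.1) p.1.2 p.2 y p.1.1.2) (hs.comp f3) ?_
    have f4 : Poly (fun p : (((α × ℕ) × ℕ) × ℕ) × ℕ => p.1.1.1.1) := f3.comp (Poly.fst Poly.id)
    exact poly_joinB (hM.comp f4) (Poly.snd (Poly.fst (Poly.fst Poly.id)))
      (Poly.snd (Poly.fst Poly.id)) (Poly.snd Poly.id)
      (Poly.snd (Poly.fst (Poly.fst (Poly.fst Poly.id))))

theorem iterate_sublist (M : List (List Bool)) (c : ℕ) (k : ℕ) :
    ((step M)^[k] (init M c)).Sublist (List.range M.length) := by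
  cases k with
  | zero => exact List.filter_sublist
  | succ k =>
    rw [Function.iterate_succ_apply']
    exact List.filter_sublist

theorem poly_clo {c : α → ℕ} (hM : Poly M) (hc : Poly c) : Poly (fun a => clo (M a) (c a)) := by
  obtain ⟨r, hr⟩ := (rng hM).sz_le
  refine Poly.iterLen (F := fun a s => step (M a) s) (rng hM) (poly_init hM hc) ?_ r ?_
  · exact poly_step (hM.comp (Poly.fst Poly.id)) (Poly.snd Poly.id)
  · intro a k _
    exact (NPC.H612.sz_sublist (iterate_sublist (M a) (c a) k)).trans (hr a)

end

theorem poly_posetB : Poly posetB := by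
  have hM : Poly (fun M : List (List Bool) => M) := Poly.id
  refine Poly.and ?_ (Poly.and ?_ (Poly.and ?_ ?_))
  · refine Poly.all (p := fun (M : List (List Bool)) (r : List Bool) =>
      decide (r.length = M.length)) hM ?_
    exact Poly.decide_eq (Poly.length (Poly.snd Poly.id)) (Poly.length (Poly.fst Poly.id))
  · refine Poly.all (p := fun (M : List (List Bool)) i => ent M i i) (rng hM) ?_
    exact poly_ent (Poly.fst Poly.id) (Poly.snd Poly.id) (Poly.snd Poly.id)
  · refine Poly.all (p := fun (M : List (List Bool)) i => (List.range M.length).all fun j =>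
      !(ent M i j && ent M j i) || decide (i = j)) (rng hM) ?_
    refine Poly.all (p := fun (p : List (List Bool) × ℕ) j =>
      !(ent p.1 p.2 j && ent p.1 j p.2) || decide (p.2 = j)) (rng (Poly.fst Poly.id)) ?_
    have a : Poly (fun p : (List (List Bool) × ℕ) × ℕ => p.1.1) := Poly.fst (Poly.fst Poly.id)
    have b : Poly (fun p : (List (List Bool) × ℕ) × ℕ => p.1.2) := Poly.snd (Poly.fst Poly.id)
    have c : Poly (fun p : (List (List Bool) × ℕ) × ℕ => p.2) := Poly.snd Poly.id
    exact Poly.or (Poly.not (Poly.and (poly_ent a b c) (poly_ent a c b))) (Poly.decide_eq b c)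
  · refine Poly.all (p := fun (M : List (List Bool)) i => (List.range M.length).all fun j =>
      (List.range M.length).all fun k => !(ent M i j && ent M j k) || ent M i k) (rng hM) ?_
    refine Poly.all (p := fun (p : List (List Bool) × ℕ) j => (List.range p.1.length).all fun k =>
      !(ent p.1 p.2 j && ent p.1 j k) || ent p.1 p.2 k) (rng (Poly.fst Poly.id)) ?_
    refine Poly.all (p := fun (p : (List (List Bool) × ℕ) × ℕ) k =>
      !(ent p.1.1 p.1.2 p.2 && ent p.1.1 p.2 k) || ent p.1.1 p.1.2 k)
      (rng (Poly.fst (Poly.fst Poly.id))) ?_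
    have a : Poly (fun p : ((List (List Bool) × ℕ) × ℕ) × ℕ => p.1.1.1) :=
      Poly.fst (Poly.fst (Poly.fst Poly.id))
    have b : Poly (fun p : ((List (List Bool) × ℕ) × ℕ) × ℕ => p.1.1.2) :=
      Poly.snd (Poly.fst (Poly.fst Poly.id))
    have c : Poly (fun p : ((List (List Bool) × ℕ) × ℕ) × ℕ => p.1.2) :=
      Poly.snd (Poly.fst Poly.id)
    have d : Poly (fun p : ((List (List Bool) × ℕ) × ℕ) × ℕ => p.2) := Poly.snd Poly.id
    exact Poly.or (Poly.not (Poly.and (poly_ent a b c) (poly_ent a c d))) (poly_ent a b d)

theorem poly_condA : Poly condA := by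
  have hM : Poly (fun M : List (List Bool) => M) := Poly.id
  refine Poly.all (p := fun (M : List (List Bool)) e => (List.range M.length).all fun x =>
    (List.range M.length).all fun y => !(ent M x e && ent M y e) ||
      (List.range M.length).any fun z => meetB M x y z) (rng hM) ?_
  refine Poly.all (p := fun (p : List (List Bool) × ℕ) x => (List.range p.1.length).all fun y =>
    !(ent p.1 x p.2 && ent p.1 y p.2) || (List.range p.1.length).any fun z => meetB p.1 x y z)
    (rng (Poly.fst Poly.id)) ?_
  refine Poly.all (p := fun (p : (List (List Bool) × ℕ) × ℕ) y =>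
    !(ent p.1.1 p.2 p.1.2 && ent p.1.1 y p.1.2) || (List.range p.1.1.length).any fun z =>
      meetB p.1.1 p.2 y z) (rng (Poly.fst (Poly.fst Poly.id))) ?_
  have a : Poly (fun p : ((List (List Bool) × ℕ) × ℕ) × ℕ => p.1.1.1) :=
    Poly.fst (Poly.fst (Poly.fst Poly.id))
  have b : Poly (fun p : ((List (List Bool) × ℕ) × ℕ) × ℕ => p.1.1.2) :=
    Poly.snd (Poly.fst (Poly.fst Poly.id))
  have c : Poly (fun p : ((List (List Bool) × ℕ) × ℕ) × ℕ => p.1.2) :=
    Poly.snd (Poly.fst Poly.id)
  have d : Poly (fun p : ((List (List Bool) × ℕ) × ℕ) × ℕ => p.2) := Poly.snd Poly.id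
  refine Poly.or (Poly.not (Poly.and (poly_ent a c b) (poly_ent a d b))) ?_
  refine Poly.any (p := fun (p : ((List (List Bool) × ℕ) × ℕ) × ℕ) z =>
    meetB p.1.1.1 p.1.2 p.2 z) (rng a) ?_
  have f : Poly (fun q : (((List (List Bool) × ℕ) × ℕ) × ℕ) × ℕ => q.1) := Poly.fst Poly.id
  exact poly_meetB (a.comp f) (c.comp f) (d.comp f) (Poly.snd Poly.id)

theorem poly_condB : Poly condB := by
  have hM : Poly (fun M : List (List Bool) => M) := Poly.id
  refine Poly.all (p := fun (M : List (List Bool)) c => (clo M c).all fun x =>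
    (List.range M.length).all fun d => !(ent M c d && ent M x d) || ent M x c) (rng hM) ?_
  refine Poly.all (p := fun (p : List (List Bool) × ℕ) x => (List.range p.1.length).all fun d =>
    !(ent p.1 p.2 d && ent p.1 x d) || ent p.1 x p.2)
    (poly_clo (Poly.fst Poly.id) (Poly.snd Poly.id)) ?_
  refine Poly.all (p := fun (p : (List (List Bool) × ℕ) × ℕ) d =>
    !(ent p.1.1 p.1.2 d && ent p.1.1 p.2 d) || ent p.1.1 p.2 p.1.2)
    (rng (Poly.fst (Poly.fst Poly.id))) ?_
  have a : Poly (fun p : ((List (List Bool) × ℕ) × ℕ) × ℕ => p.1.1.1) :=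
    Poly.fst (Poly.fst (Poly.fst Poly.id))
  have b : Poly (fun p : ((List (List Bool) × ℕ) × ℕ) × ℕ => p.1.1.2) :=
    Poly.snd (Poly.fst (Poly.fst Poly.id))
  have c : Poly (fun p : ((List (List Bool) × ℕ) × ℕ) × ℕ => p.1.2) :=
    Poly.snd (Poly.fst Poly.id)
  have d : Poly (fun p : ((List (List Bool) × ℕ) × ℕ) × ℕ => p.2) := Poly.snd Poly.id
  exact Poly.or (Poly.not (Poly.and (poly_ent a b d) (poly_ent a c d))) (poly_ent a c b)

theorem poly_decB : Poly decB := Poly.and poly_posetB (Poly.and poly_condA poly_condB)

end Pool.Agent.Q230.DP
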