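import Pool.Agent.Q230.DP.Alg

/-!
# Correctness of the algorithm
-/

set_option autoImplicit false

namespace Pool.Agent.Q230.DP

open Pool.Agent.NPC

/-! ### Iteration -/

theorem iter_fix (n : ℕ) (F : Finset ℕ → Finset ℕ) (h1 : ∀ s ⊆ Finset.range n, s ⊆ F s)
    (h2 : ∀ s, F s ⊆ Finset.range n) {s : Finset ℕ} (hs : s ⊆ Finset.range n) :
    F (F^[n] s) = F^[n] s := by
  have hsub : ∀ k, F^[k] s ⊆ Finset.range n := by
    intro k
    cases k with
    | zero => exact hs
    | succ k => rw [Function.iterate_succ_apply']; exact h2 _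
  by_contra hne
  have hk : ∀ k ≤ n, F (F^[k] s) ≠ F^[k] s := by
    intro k hk heq
    apply hne
    have : ∀ j, F^[k + j] s = F^[k] s := by
      intro j
      induction j with
      | zero => rfl
      | succ j ih => rw [← Nat.add_assoc, Function.iterate_succ_apply', ih, heq]
    have h3 := this (n - k)
    rw [show k + (n - k) = n by omega] at h3
    rw [h3, heq]
  have hcard : ∀ k ≤ n + 1, k ≤ (F^[k] s).card := by
    intro k
    induction k with
    | zero => intro _; exact Nat.zero_le _
    | succ k ih =>
      intro hk1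
      have h3 := ih (by omega)
      have h4 : F^[k] s ⊂ F (F^[k] s) :=
        ((h1 _ (hsub k)).ssubset_of_ne (hk k (by omega)).symm)
      have h5 := Finset.card_lt_card h4
      rw [Function.iterate_succ_apply']
      omega
  have h6 := hcard (n + 1) le_rfl
  have h7 := Finset.card_le_card (hsub (n + 1))
  rw [Finset.card_range] at h7
  omega

/-- the step for finite sets -/
def stepF (M : List (List Bool)) (s : Finset ℕ) : Finset ℕ :=
  (Finset.range M.length).filter fun v => v ∈ s ∨ (∃ x ∈ s, ent M v x = true) ∨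
    ∃ e < M.length, ∃ x ∈ s, ∃ y ∈ s, joinB M e x y v = true

theorem mem_step {M : List (List Bool)} {s : List ℕ} {v : ℕ} : v ∈ step M s ↔
    v < M.length ∧ (v ∈ s ∨ (∃ x ∈ s, ent M v x = true) ∨
      ∃ e < M.length, ∃ x ∈ s, ∃ y ∈ s, joinB M e x y v = true) := by
  unfold step
  simp only [List.mem_filter, List.mem_range, Bool.or_eq_true, decide_eq_true_eq,
    List.any_eq_true]

theorem step_toFinset (M : List (List Bool)) (s : List ℕ) :
    (step M s).toFinset = stepF M s.toFinset := by
  ext v
  rw [List.mem_toFinset, mem_step]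
  simp only [stepF, Finset.mem_filter, Finset.mem_range, List.mem_toFinset]

theorem iterate_toFinset (M : List (List Bool)) (s : List ℕ) (k : ℕ) :
    ((step M)^[k] s).toFinset = (stepF M)^[k] s.toFinset := by
  induction k with
  | zero => rfl
  | succ k ih => rw [Function.iterate_succ_apply', Function.iterate_succ_apply', step_toFinset, ih]

theorem mem_init {M : List (List Bool)} {c v : ℕ} : v ∈ init M c ↔
    v < M.length ∧ (v = c ∨ ∀ w < M.length, ent M w v = true → w = v) := by
  unfold init minB
  simp only [List.mem_filter, List.mem_range, Bool.or_eq_true, decide_eq_true_eq,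
    List.all_eq_true, Bool.not_eq_true']
  refine and_congr Iff.rfl (or_congr Iff.rfl (forall_congr' fun w => forall_congr' fun _ => ?_))
  rcases h : ent M w v with _ | _ <;> simp

theorem clo_fix {M : List (List Bool)} {c v : ℕ} (h : v ∈ step M (clo M c)) : v ∈ clo M c := by
  have h1 := iter_fix M.length (stepF M) (s := (init M c).toFinset) ?_ ?_ ?_
  · rw [← iterate_toFinset, ← step_toFinset] at h1
    rw [← List.mem_toFinset] at h ⊢
    unfold clo at h ⊢
    rw [List.length_range] at h ⊢
    rw [← h1]
    exact h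
  · intro s hs v hv
    simp only [stepF, Finset.mem_filter, Finset.mem_range]
    exact ⟨Finset.mem_range.1 (hs hv), Or.inl hv⟩
  · intro s v hv
    exact (Finset.mem_filter.1 hv).1
  · intro v hv
    rw [List.mem_toFinset, mem_init] at hv
    exact Finset.mem_range.2 hv.1

theorem clo_lt {M : List (List Bool)} {c v : ℕ} (h : v ∈ clo M c) : v < M.length :=
  List.mem_range.1 ((iterate_sublist M c _).subset h)

theorem init_sub_clo {M : List (List Bool)} {c v : ℕ} (h : v ∈ init M c) : v ∈ clo M c := by
  have : ∀ k, v ∈ (step M)^[k] (init M c) := by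
    intro k
    induction k with
    | zero => exact h
    | succ k ih =>
      rw [Function.iterate_succ_apply', mem_step]
      exact ⟨(mem_init.1 h).1, Or.inl ih⟩
  exact this _

/-! ### The poset of a matrix -/

/-- the poset -/
@[reducible] def posetOf (M : List (List Bool)) (h : IsPosetMatrix M) :
    PartialOrder (Fin M.length) where
  le i j := ent M i j = true
  lt i j := ent M i j = true ∧ ¬ ent M j i = true
  lt_iff_le_not_ge _ _ := Iff.rfl
  le_refl i := h.2.1 i i.2
  le_trans i j k h1 h2 := h.2.2.2 i i.2 j j.2 k k.2 h1 h2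
  le_antisymm i j h1 h2 := Fin.ext (h.2.2.1 i i.2 j j.2 h1 h2)

theorem forall_range {n : ℕ} {p : ℕ → Prop} : (∀ i < n, p i) ↔ ∀ i : Fin n, p i :=
  ⟨fun h i => h i i.2, fun h i hi => h ⟨i, hi⟩⟩

theorem exists_range {n : ℕ} {p : ℕ → Prop} : (∃ i < n, p i) ↔ ∃ i : Fin n, p i :=
  ⟨fun ⟨i, hi, h⟩ => ⟨⟨i, hi⟩, h⟩, fun ⟨i, h⟩ => ⟨i, i.2, h⟩⟩

section

variable {M : List (List Bool)} (hM : IsPosetMatrix M)

theorem joinB_iff (e x y j : Fin M.length) : joinB M e x y j = true ↔
    @LJ (Fin M.length) (posetOf M hM) e x y j := by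
  unfold joinB LJ
  simp only [Bool.and_eq_true, List.all_eq_true, List.mem_range, Bool.or_eq_true,
    Bool.not_eq_true', Bool.and_eq_false_iff]
  refine and_congr Iff.rfl (and_congr Iff.rfl (and_congr Iff.rfl (and_congr Iff.rfl
    (and_congr Iff.rfl ?_))))
  rw [forall_range (p := fun w => (ent M w e = false ∨ ent M x w = false ∨ ent M y w = false) ∨
    ent M j w = true)]
  refine forall_congr' fun w => ?_
  change _ ↔ (ent M w e = true → ent M x w = true → ent M y w = true → ent M j w = true)
  rcases ent M w e with _ | _ <;> rcases ent M x w with _ | _ <;> rcases ent M y w with _ | _ <;>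
    simp

theorem condA_iff : condA M = true ↔ @LocalMeets (Fin M.length) (posetOf M hM) := by
  unfold condA LocalMeets
  simp only [List.all_eq_true, List.mem_range, Bool.or_eq_true, Bool.not_eq_true',
    Bool.and_eq_false_iff, List.any_eq_true]
  rw [forall_range (p := fun e => ∀ x < M.length, ∀ y < M.length,
    (ent M x e = false ∨ ent M y e = false) ∨ ∃ z < M.length, meetB M x y z = true)]
  refine forall_congr' fun e => ?_
  rw [forall_range (p := fun x => ∀ y < M.length,
    (ent M x e = false ∨ ent M y e = false) ∨ ∃ z < M.length, meetB M x y z = true)]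
  refine forall_congr' fun x => ?_
  rw [forall_range (p := fun y =>
    (ent M x e = false ∨ ent M y e = false) ∨ ∃ z < M.length, meetB M x y z = true)]
  refine forall_congr' fun y => ?_
  rw [exists_range (p := fun z => meetB M x y z = true)]
  have hm : ∀ z : Fin M.length, meetB M x y z = true ↔
      (ent M z x = true ∧ ent M z y = true ∧ ∀ w : Fin M.length, ent M w x = true →
        ent M w y = true → ent M w z = true) := by
    intro z
    unfold meetB
    simp only [Bool.and_eq_true, List.all_eq_true, List.mem_range, Bool.or_eq_true,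
      Bool.not_eq_true', Bool.and_eq_false_iff]
    refine and_congr Iff.rfl (and_congr Iff.rfl ?_)
    rw [forall_range (p := fun w => (ent M w x = false ∨ ent M w y = false) ∨
      ent M w z = true)]
    refine forall_congr' fun w => ?_
    rcases ent M w x with _ | _ <;> rcases ent M w y with _ | _ <;> simp
  simp only [hm]
  change _ ↔ (ent M x e = true → ent M y e = true → ∃ z : Fin M.length, ent M z x = true ∧
    ent M z y = true ∧ ∀ w : Fin M.length, ent M w x = true → ent M w y = true → ent M w z = true)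
  rcases ent M x e with _ | _ <;> rcases ent M y e with _ | _ <;> simp

/-- the closure as a set -/
def cloS (M : List (List Bool)) (c : Fin M.length) : Set (Fin M.length) :=
  {v | (v : ℕ) ∈ clo M c}

theorem cloS_self (c : Fin M.length) : c ∈ cloS M c :=
  init_sub_clo (mem_init.2 ⟨c.2, Or.inl rfl⟩)

theorem cloS_closed (c : Fin M.length) : @ClosedJ (Fin M.length) (posetOf M hM) (cloS M c) := by
  refine ⟨?_, ?_, ?_⟩
  · intro x hx y hy
    exact clo_fix (mem_step.2 ⟨y.2, Or.inr (Or.inl ⟨x, hx, hy⟩)⟩)
  · intro v hv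
    refine init_sub_clo (mem_init.2 ⟨v.2, Or.inr fun w hw hwv => ?_⟩)
    exact congrArg Fin.val (hv ⟨w, hw⟩ hwv)
  · intro e x y j hx hy hj
    exact clo_fix (mem_step.2 ⟨j.2, Or.inr (Or.inr ⟨e, e.2, x, hx, y, hy,
      (joinB_iff hM e x y j).2 hj⟩)⟩)

theorem cloS_least (c : Fin M.length) (D : Set (Fin M.length))
    (hD : @ClosedJ (Fin M.length) (posetOf M hM) D) (hc : c ∈ D) : cloS M c ⊆ D := by
  have key : ∀ k, ∀ v : Fin M.length, (v : ℕ) ∈ (step M)^[k] (init M c) → v ∈ D := by
    intro k
    induction k with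
    | zero =>
      intro v hv
      rcases (mem_init.1 hv).2 with h | h
      · have : v = c := Fin.ext h
        rw [this]; exact hc
      · refine hD.2.1 v fun w hw => ?_
        exact Fin.ext (h w w.2 hw)
    | succ k ih =>
      intro v hv
      rw [Function.iterate_succ_apply', mem_step] at hv
      have hlt : ∀ x ∈ (step M)^[k] (init M c), x < M.length := fun x hx =>
        List.mem_range.1 ((iterate_sublist M c k).subset hx)
      rcases hv.2 with h | ⟨x, hx, hvx⟩ | ⟨e, he, x, hx, y, hy, hj⟩
      · exact ih v h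
      · exact hD.1 ⟨x, hlt x hx⟩ (ih ⟨x, hlt x hx⟩ hx) v hvx
      · exact hD.2.2 ⟨e, he⟩ ⟨x, hlt x hx⟩ ⟨y, hlt y hy⟩ v (ih ⟨x, hlt x hx⟩ hx)
          (ih ⟨y, hlt y hy⟩ hy) ((joinB_iff hM ⟨e, he⟩ ⟨x, hlt x hx⟩ ⟨y, hlt y hy⟩ v).1 hj)
  exact key _

theorem condB_iff : condB M = true ↔ ∀ c d : Fin M.length, ent M c d = true →
    ∀ x ∈ cloS M c, ent M x d = true → ent M x c = true := by
  unfold condB
  simp only [List.all_eq_true, List.mem_range, Bool.or_eq_true, Bool.not_eq_true',
    Bool.and_eq_false_iff]
  constructor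
  · intro h c d hcd x hx hxd
    rcases h c c.2 x hx d d.2 with (h1 | h1) | h1
    · rw [hcd] at h1; exact absurd h1 (by simp)
    · rw [hxd] at h1; exact absurd h1 (by simp)
    · exact h1
  · intro h c hc x hx d hd
    rcases h1 : ent M c d with _ | _
    · exact Or.inl (Or.inl rfl)
    · rcases h2 : ent M x d with _ | _
      · exact Or.inl (Or.inr rfl)
      · exact Or.inr (h ⟨c, hc⟩ ⟨d, hd⟩ h1 ⟨x, clo_lt hx⟩ hx h2)

end

theorem decB_iff (M : List (List Bool)) : DownPosets M ↔ decB M = true := by
  unfold DownPosets decB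
  rw [Bool.and_eq_true, Bool.and_eq_true, posetB_iff]
  refine and_congr_right fun hM => ?_
  rw [condA_iff hM, condB_iff]
  have h1 : @IsDownPoset (Fin M.length) (leOf M) ↔
      ∀ c d : Fin M.length, (posetOf M hM).le c d →
        ∃ f, @DownFun (Fin M.length) (posetOf M hM) f ∧ f d = c :=
    @isDownPoset_iff (Fin M.length) (posetOf M hM)
  rw [h1, @downFun_iff (Fin M.length) (posetOf M hM) _ (cloS M) (cloS_closed hM) cloS_self
    (cloS_least hM)]
  exact Iff.rfl

theorem downPosets_inP : InPP DownPosets := inPP_of poly_decB decB_iff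

end Pool.Agent.Q230.DP
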