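import Mathlib

/-!
# Down-posets: definitions
-/

set_option autoImplicit false

namespace Pool.Agent.Q230.DP

/-- `C` is a down-poset: it is isomorphic to the poset `(C', ≤)` of an action of a semilattice with
identity `S` on a set `C'`, where `c ≤ d` iff `d s = c` for some `s ∈ S`. -/
def IsDownPoset (C : Type) [LE C] : Prop :=
  ∃ (S : Type) (_ : CommMonoid S) (C' : Type) (act : C' → S → C') (e : C ≃ C'),
    (∀ s : S, s * s = s) ∧ (∀ c s t, act c (s * t) = act (act c s) t) ∧ (∀ c, act c 1 = c) ∧
      ∀ c d : C, c ≤ d ↔ ∃ s, act (e d) s = e c

/-- The entry in row `i` and column `j`. -/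
def ent (M : List (List Bool)) (i j : ℕ) : Bool := (M.getD i []).getD j false

/-- `M` is the matrix of a partial order on the indices `0, …, n - 1`. -/
def IsPosetMatrix (M : List (List Bool)) : Prop :=
  (∀ r ∈ M, r.length = M.length) ∧ (∀ i < M.length, ent M i i = true) ∧
    (∀ i < M.length, ∀ j < M.length, ent M i j = true → ent M j i = true → i = j) ∧
      ∀ i < M.length, ∀ j < M.length, ∀ k < M.length, ent M i j = true → ent M j k = true →
        ent M i k = true

/-- The order relation given by the matrix `M`. -/
def leOf (M : List (List Bool)) : LE (Fin M.length) := ⟨fun i j => ent M i j = true⟩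

/-- The decision problem: `M` is the matrix of a finite poset which is a down-poset. -/
def DownPosets (M : List (List Bool)) : Prop :=
  IsPosetMatrix M ∧ @IsDownPoset (Fin M.length) (leOf M)

end Pool.Agent.Q230.DP
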