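import Pool.Agent.Q230.DP.Defs

/-!
# A characterisation of the finite down-posets
-/

set_option autoImplicit false

namespace Pool.Agent.Q230.DP

section

variable {C : Type} [PartialOrder C]

/-- down-functions -/
def DownFun (f : C → C) : Prop :=
  (∀ c, f c ≤ c) ∧ (∀ c d, c ≤ d → f c ≤ f d) ∧ ∀ c d, c ≤ f d → f c = c

/-- down-sets that meet every principal down-set in a principal down-set -/
def Valid (D : Set C) : Prop :=
  (∀ x ∈ D, ∀ y, y ≤ x → y ∈ D) ∧ ∀ e, ∃ m ∈ D, m ≤ e ∧ ∀ x ∈ D, x ≤ e → x ≤ m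

/-- `j` is the join of `x` and `y` in the principal down-set of `e` -/
def LJ (e x y j : C) : Prop :=
  x ≤ e ∧ y ≤ e ∧ j ≤ e ∧ x ≤ j ∧ y ≤ j ∧ ∀ w, w ≤ e → x ≤ w → y ≤ w → j ≤ w

/-- closed sets -/
def ClosedJ (D : Set C) : Prop :=
  (∀ x ∈ D, ∀ y, y ≤ x → y ∈ D) ∧ (∀ v, (∀ w, w ≤ v → w = v) → v ∈ D) ∧
    ∀ e x y j, x ∈ D → y ∈ D → LJ e x y j → j ∈ D

/-- elements with a common upper bound have a meet -/
def LocalMeets (C : Type) [PartialOrder C] : Prop :=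
  ∀ e x y : C, x ≤ e → y ≤ e → ∃ z, z ≤ x ∧ z ≤ y ∧ ∀ w, w ≤ x → w ≤ y → w ≤ z

theorem DownFun.valid {f : C → C} (h : DownFun f) : Valid (Set.range f) := by
  obtain ⟨h1, h2, h3⟩ := h
  constructor
  · rintro _ ⟨d, rfl⟩ y hy
    exact ⟨y, h3 y d hy⟩
  · intro e
    refine ⟨f e, ⟨e, rfl⟩, h1 e, ?_⟩
    rintro _ ⟨d, rfl⟩ hx
    have h4 := h3 (f d) d le_rfl
    rw [← h4]
    exact h2 _ _ hx

theorem Valid.closedJ {D : Set C} (h : Valid D) : ClosedJ D := by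
  refine ⟨h.1, ?_, ?_⟩
  · intro v hv
    obtain ⟨m, hm, hmv, -⟩ := h.2 v
    rw [← hv m hmv]
    exact hm
  · rintro e x y j hx hy ⟨h1, h2, h3, h4, h5, h6⟩
    obtain ⟨m, hm, hme, hmax⟩ := h.2 e
    exact h.1 m hm j (h6 m hme (hmax x hx h1) (hmax y hy h2))

theorem Valid.exists_downFun {D : Set C} (h : Valid D) :
    ∃ f : C → C, DownFun f ∧ (∀ e, f e ∈ D) ∧ ∀ e, ∀ x ∈ D, x ≤ e → x ≤ f e := by
  choose f hf1 hf2 hf3 using h.2
  refine ⟨f, ⟨hf2, ?_, ?_⟩, hf1, hf3⟩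
  · intro c d hcd
    exact hf3 d _ (hf1 c) ((hf2 c).trans hcd)
  · intro c d hcd
    have hc : c ∈ D := h.1 _ (hf1 d) c hcd
    exact le_antisymm (hf2 c) (hf3 c c hc le_rfl)

variable [Finite C]

omit [Finite C] in
theorem exists_join_aux (hA : LocalMeets C) {e x y : C} {U : Set C}
    (hU : U = {w | w ≤ e ∧ x ≤ w ∧ y ≤ w}) {j : C} (hj : Minimal (· ∈ U) j) :
    ∀ w ∈ U, j ≤ w := by
  intro w hw
  have hjU := hj.prop
  rw [hU] at hw hjU
  obtain ⟨hw1, hw2, hw3⟩ := hw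
  obtain ⟨hj1, hj2, hj3⟩ := hjU
  obtain ⟨z, hz1, hz2, hz3⟩ := hA e j w hj1 hw1
  have hzU : z ∈ U := by
    rw [hU]
    exact ⟨hz1.trans hj1, hz3 x hj2 hw2, hz3 y hj3 hw3⟩
  exact (hj.le_of_le hzU hz1).trans hz2

theorem exists_join (hA : LocalMeets C) {e x y : C} (hx : x ≤ e) (hy : y ≤ e) :
    ∃ j, LJ e x y j := by
  obtain ⟨j, hj⟩ : ∃ j, Minimal (· ∈ {w | w ≤ e ∧ x ≤ w ∧ y ≤ w}) j :=
    Set.Finite.exists_minimal (Set.toFinite _) ⟨e, le_rfl, hx, hy⟩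
  have h1 := exists_join_aux hA rfl hj
  obtain ⟨h2, h3, h4⟩ := hj.prop
  exact ⟨j, hx, hy, h2, h3, h4, fun w hw1 hw2 hw3 => h1 w ⟨hw1, hw2, hw3⟩⟩

theorem ClosedJ.valid (hA : LocalMeets C) {D : Set C} (h : ClosedJ D) : Valid D := by
  refine ⟨h.1, fun e => ?_⟩
  -- a minimal element below `e`
  obtain ⟨v, hv⟩ : ∃ v, Minimal (· ∈ {w | w ≤ e}) v :=
    Set.Finite.exists_minimal (Set.toFinite _) ⟨e, le_rfl⟩
  have hvD : v ∈ D := by
    refine h.2.1 v fun w hw => ?_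
    exact le_antisymm hw (hv.le_of_le (hw.trans hv.prop) hw)
  obtain ⟨m, hm⟩ : ∃ m, Maximal (· ∈ {w | w ∈ D ∧ w ≤ e}) m :=
    Set.Finite.exists_maximal (Set.toFinite _) ⟨v, hvD, hv.prop⟩
  obtain ⟨hmD, hme⟩ := hm.prop
  refine ⟨m, hmD, hme, fun x hx hxe => ?_⟩
  obtain ⟨j, hj⟩ := exists_join hA hxe hme
  have hjD : j ∈ D := h.2.2 e x m j hx hmD hj
  have h1 : j ≤ m := hm.le_of_ge ⟨hjD, hj.2.2.1⟩ hj.2.2.2.2.1
  exact hj.2.2.2.1.trans h1

omit [Finite C] in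
theorem localMeets_of (h : ∀ c d : C, c ≤ d → ∃ f, DownFun f ∧ f d = c) : LocalMeets C := by
  intro e x y hx hy
  obtain ⟨f, hf, hfx⟩ := h x e hx
  refine ⟨f y, ?_, hf.1 y, ?_⟩
  · rw [← hfx]
    exact hf.2.1 y e hy
  · intro w hw1 hw2
    have h1 : f w = w := hf.2.2 w e (by rw [hfx]; exact hw1)
    rw [← h1]
    exact hf.2.1 w y hw2

/-- The characterisation, in terms of least closed sets. -/
theorem downFun_iff {D : C → Set C} (h1 : ∀ c, ClosedJ (D c)) (h2 : ∀ c, c ∈ D c)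
    (h3 : ∀ c D', ClosedJ D' → c ∈ D' → D c ⊆ D') :
    (∀ c d : C, c ≤ d → ∃ f, DownFun f ∧ f d = c) ↔
      LocalMeets C ∧ ∀ c d, c ≤ d → ∀ x ∈ D c, x ≤ d → x ≤ c := by
  constructor
  · intro h
    refine ⟨localMeets_of h, ?_⟩
    intro c d hcd x hx hxd
    obtain ⟨f, hf, hfd⟩ := h c d hcd
    have hxf : x ∈ Set.range f := h3 c _ hf.valid.closedJ ⟨d, hfd⟩ hx
    obtain ⟨m, -, -, -⟩ := hf.valid.2 d
    obtain ⟨y, rfl⟩ := hxf
    have h4 := hf.2.2 (f y) y le_rfl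
    rw [← h4, ← hfd]
    exact hf.2.1 _ _ hxd
  · rintro ⟨hA, hB⟩ c d hcd
    obtain ⟨f, hf, hfD, hfmax⟩ := ((h1 c).valid hA).exists_downFun
    refine ⟨f, hf, le_antisymm ?_ ?_⟩
    · exact hB c d hcd _ (hfD d) (hf.1 d)
    · exact hfmax d c (h2 c) hcd

omit [Finite C] in
/-- composition of down-functions -/
theorem DownFun.comp {f g : C → C} (hf : DownFun f) (hg : DownFun g) :
    DownFun (fun c => f (g c)) := by
  refine ⟨fun c => (hf.1 _).trans (hg.1 c), fun c d hcd => hf.2.1 _ _ (hg.2.1 _ _ hcd), ?_⟩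
  intro c d hcd
  have h1 : g c = c := hg.2.2 c d (hcd.trans (hf.1 _))
  simp only
  rw [h1]
  exact hf.2.2 c _ hcd

omit [Finite C] in
theorem DownFun.comm {f g : C → C} (hf : DownFun f) (hg : DownFun g) (c : C) :
    f (g c) = g (f c) := by
  have key : ∀ {f g : C → C}, DownFun f → DownFun g → f (g c) ≤ g (f c) := by
    intro f g hf hg
    have h1 : g (f (g c)) = f (g c) := hg.2.2 _ c (hf.1 _)
    rw [← h1]
    exact hg.2.1 _ _ (hf.2.1 _ _ (hg.1 c))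
  exact le_antisymm (key hf hg) (key hg hf)

omit [Finite C] in
/-- The known description of the down-posets by down-functions. -/
theorem isDownPoset_iff :
    IsDownPoset C ↔ ∀ c d : C, c ≤ d → ∃ f, DownFun f ∧ f d = c := by
  constructor
  · rintro ⟨S, inst, C', act, e, hidem, hmul, hone, hle⟩ c d hcd
    obtain ⟨s, hs⟩ := (hle c d).1 hcd
    refine ⟨fun x => e.symm (act (e x) s), ⟨?_, ?_, ?_⟩, ?_⟩
    · intro x
      rw [hle]
      exact ⟨s, by rw [Equiv.apply_symm_apply]⟩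
    · intro x y hxy
      obtain ⟨t, ht⟩ := (hle x y).1 hxy
      rw [hle]
      refine ⟨t, ?_⟩
      simp only [Equiv.apply_symm_apply]
      rw [← hmul, mul_comm, hmul, ht]
    · intro x y hxy
      obtain ⟨t, ht⟩ := (hle _ _).1 hxy
      rw [Equiv.apply_symm_apply] at ht
      simp only
      rw [Equiv.symm_apply_eq, ← ht, ← hmul, ← hmul, mul_comm t s, ← mul_assoc, hidem]
      exact hmul _ _ _
    · simp only
      rw [hs, Equiv.symm_apply_apply]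
  · intro h
    refine ⟨{f : C → C // DownFun f}, ?_, C, fun c f => f.1 c, Equiv.refl C, ?_, ?_, ?_, ?_⟩
    · exact {
        mul := fun f g => ⟨fun c => f.1 (g.1 c), f.2.comp g.2⟩
        one := ⟨fun c => c, fun c => le_rfl, fun c d h => h, fun c d _ => rfl⟩
        mul_assoc := fun f g h => rfl
        one_mul := fun f => rfl
        mul_one := fun f => rfl
        mul_comm := fun f g => Subtype.ext (funext fun c => f.2.comm g.2 c) }
    · intro f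
      exact Subtype.ext (funext fun c => f.2.2.2 (f.1 c) c le_rfl)
    · intro c f g
      exact f.2.comm g.2 c
    · intro c
      rfl
    · intro c d
      constructor
      · intro hcd
        obtain ⟨f, hf, hfd⟩ := h c d hcd
        exact ⟨⟨f, hf⟩, hfd⟩
      · rintro ⟨f, hf⟩
        have h1 := f.2.1 d
        simp only [Equiv.refl_apply] at hf
        rw [hf] at h1
        exact h1

end

end Pool.Agent.Q230.DP
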